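import Pool.Agent.N783.PF.Lat
import Pool.Agent.N707.PF.Maj

/-!
# Project PF (helper783), part DIS (helper547): a basis over the integers of a lattice, and its
discriminant
-/

set_option autoImplicit false
set_option linter.all false

open Polynomial Matrix NumberField
open scoped Classical

namespace Pool.Agent.N547.PF

open Pool.Agent.N783.PF
open Pool.Agent.N707.PF.MAJ (Em euler deriv)

section

variable {F L : Type} [Field F] [NumberField F] [Field L] [NumberField L] [Algebra F L]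
  {g : ℕ} {f : (𝓞 F)[X]} {θ : L}

/-- Euler's formula. -/
theorem top_eq (hG : IsGen g f θ) (y : L) :
    hG.top y = Algebra.trace F L (y / aeval θ (derivative (fF f))) := by
  obtain ⟨σ⟩ : Nonempty (F →+* ℂ) := inferInstance
  let _ : Algebra F ℂ := σ.toAlgebra
  have : FiniteDimensional F L := FiniteDimensional.of_finrank_pos (by rw [hG.rank]; omega)
  have hc : Fintype.card (L →ₐ[F] ℂ) = 2 * g + 1 := by
    rw [AlgHom.card, hG.rank]
  let e := (Fintype.equivFinOfCardEq hc).symm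
  have hE : Em g f θ σ (fun k => (e k : L →ₐ[F] ℂ).toRingHom) := by
    refine ⟨?_, fun k a => ?_⟩
    · intro k l h
      apply e.injective
      refine AlgHom.ext fun x => ?_
      exact RingHom.congr_fun h x
    · exact (e k).commutes a
  apply σ.injective
  rw [euler hG hE]
  have h1 : σ (Algebra.trace F L (y / aeval θ (derivative (fF f)))) =
      ∑ τ : L →ₐ[F] ℂ, τ (y / aeval θ (derivative (fF f))) := trace_eq_sum_embeddings ℂ
  rw [h1, ← Equiv.sum_comp e]
  refine Finset.sum_congr rfl fun k _ => ?_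
  rw [← deriv hG hE k]
  exact (map_div₀ (e k) _ _).symm

theorem exists_int (m : 𝓞 F) (hm : m ≠ 0) : ∃ n : ℕ, n ≠ 0 ∧ m ∣ (n : 𝓞 F) := by
  refine ⟨Ideal.absNorm (Ideal.span {m}), ?_, ?_⟩
  · rw [Ne, Ideal.absNorm_eq_zero_iff, Ideal.span_singleton_eq_bot]
    exact hm
  · rw [← Ideal.mem_span_singleton]
    exact Ideal.absNorm_mem _

/-- A basis over the integers. -/
theorem exists_basis (hG : IsGen g f θ) (Λ : Submodule (𝓞 F) L) (hfg : Λ.FG)
    (hsp : ∀ x : L, ∃ m : 𝓞 F, m ≠ 0 ∧ m • x ∈ Λ) :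
    ∃ b : Fin ((2 * g + 1) * Module.finrank ℚ F) → L, LinearIndependent ℚ b ∧
    (∀ x : L, x ∈ Λ ↔ ∃ c : Fin ((2 * g + 1) * Module.finrank ℚ F) → ℤ,
      x = ∑ i, (c i : L) * b i) := by
  have : FiniteDimensional F L := FiniteDimensional.of_finrank_pos (by rw [hG.rank]; omega)
  let Λz : Submodule ℤ L := Λ.restrictScalars ℤ
  have hmem : ∀ x, x ∈ Λz ↔ x ∈ Λ := fun x => Iff.rfl
  have hf : Λz.FG := hfg.restrictScalars
  have : Module.Finite ℤ Λz := Module.Finite.iff_fg.mpr hf
  let b0 := Module.finBasis ℤ Λz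
  let v : Fin (Module.finrank ℤ Λz) → L := fun i => (b0 i : L)
  have hv0 : LinearIndependent ℤ v :=
    b0.linearIndependent.map' Λz.subtype (Submodule.ker_subtype _)
  have hv : LinearIndependent ℚ v := (LinearIndependent.iff_fractionRing ℤ ℚ).mp hv0
  have hrep : ∀ x ∈ Λ, ∃ c : Fin (Module.finrank ℤ Λz) → ℤ, x = ∑ i, (c i : L) * v i := by
    intro x hx
    refine ⟨fun i => b0.repr ⟨x, hx⟩ i, ?_⟩
    have h1 := b0.sum_repr ⟨x, hx⟩
    have h2 := congrArg (Λz.subtype) h1
    rw [map_sum] at h2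
    refine h2.symm.trans (Finset.sum_congr rfl fun i _ => ?_)
    rw [map_zsmul, zsmul_eq_mul]
    rfl
  have hsub : ⊤ ≤ Submodule.span ℚ (Set.range v) := by
    intro x _
    obtain ⟨m, hm, hmx⟩ := hsp x
    obtain ⟨n, hn, k, hk⟩ := exists_int m hm
    have h1 : (n : L) * x ∈ Λ := by
      have h2 : k • (m • x) ∈ Λ := Λ.smul_mem k hmx
      rw [smul_smul, mul_comm, ← hk, Algebra.smul_def] at h2
      rwa [map_natCast] at h2
    obtain ⟨c, hc⟩ := hrep _ h1
    have h3 : x = ∑ i, ((c i : ℚ) / n) • v i := by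
      have hn' : (n : L) ≠ 0 := by exact_mod_cast hn
      have h4 : x = (n : L)⁻¹ * ((n : L) * x) := by rw [inv_mul_cancel_left₀ hn']
      rw [h4, hc, Finset.mul_sum]
      refine Finset.sum_congr rfl fun i _ => ?_
      rw [Algebra.smul_def, map_div₀, map_intCast, map_natCast]
      ring
    rw [h3]
    exact Submodule.sum_mem _ fun i _ => Submodule.smul_mem _ _ (Submodule.subset_span ⟨i, rfl⟩)
  let B := Module.Basis.mk hv hsub
  have hN : Module.finrank ℤ Λz = (2 * g + 1) * Module.finrank ℚ F := by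
    have h1 := Module.finrank_eq_card_basis B
    rw [Fintype.card_fin, ← Module.finrank_mul_finrank ℚ F L, hG.rank] at h1
    rw [← h1, mul_comm]
  let ε := finCongr hN
  refine ⟨v ∘ ε.symm, hv.comp _ ε.symm.injective, fun x => ⟨fun hx => ?_, fun hx => ?_⟩⟩
  · obtain ⟨c, hc⟩ := hrep x hx
    refine ⟨c ∘ ε.symm, hc.trans ?_⟩
    exact (Equiv.sum_comp ε.symm fun i => (c i : L) * v i).symm
  · obtain ⟨c, rfl⟩ := hx
    refine Submodule.sum_mem _ fun i _ => ?_
    have h1 : (c i : L) * (v ∘ ε.symm) i = (c i : 𝓞 F) • (v (ε.symm i)) := by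
      rw [Algebra.smul_def, map_intCast]
      rfl
    rw [h1]
    exact Λ.smul_mem _ (b0 (ε.symm i)).2

end

/-- A denominator of the codifferent. -/
theorem exists_codiff (F : Type) [Field F] [NumberField F] : ∃ m : ℕ, m ≠ 0 ∧ ∀ y : F,
    (∀ a : 𝓞 F, ∃ z : ℤ, Algebra.trace ℚ F ((a : F) * y) = z) → IsIntegral ℤ ((m : F) * y) := by
  let ω := integralBasis F
  let d := (Algebra.traceForm ℚ F).dualBasis (traceForm_nondegenerate ℚ F) ω
  have h1 : ∀ i, ∃ k : ℕ, k ≠ 0 ∧ IsIntegral ℤ ((k : F) * d i) := by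
    intro i
    have hal : IsAlgebraic ℤ (d i) :=
      (IsFractionRing.isAlgebraic_iff ℤ ℚ F).mpr (Algebra.IsAlgebraic.isAlgebraic _)
    obtain ⟨k, hk, hi⟩ := hal.exists_integral_multiple
    refine ⟨k.natAbs, Int.natAbs_ne_zero.mpr hk, ?_⟩
    have h' : ((k.natAbs : ℕ) : F) = ((k.natAbs : ℤ) : F) := (Int.cast_natCast _).symm
    rcases Int.natAbs_eq k with h | h
    · have h2 : ((k.natAbs : ℕ) : F) * d i = k • d i := by
        rw [zsmul_eq_mul, h', ← h]
      rw [h2]
      exact hi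
    · have h3 : (k : F) = -((k.natAbs : ℤ) : F) := by
        rw [← Int.cast_neg, ← h]
      have h2 : ((k.natAbs : ℕ) : F) * d i = -(k • d i) := by
        rw [zsmul_eq_mul, h', h3]
        ring
      rw [h2]
      exact hi.neg
  choose k hk hki using h1
  refine ⟨∏ i, k i, Finset.prod_ne_zero_iff.mpr fun i _ => hk i, fun y hy => ?_⟩
  have h2 := d.sum_repr y
  rw [← h2, Finset.mul_sum]
  refine IsIntegral.sum _ fun i _ => ?_
  have h3 : d.repr y i = Algebra.trace ℚ F (y * ω i) := by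
    rw [LinearMap.BilinForm.dualBasis_repr_apply]
    rfl
  obtain ⟨a, ha⟩ : ∃ a : 𝓞 F, (a : F) = ω i :=
    ⟨RingOfIntegers.basis F i, (integralBasis_apply F i).symm⟩
  obtain ⟨z, hz⟩ := hy a
  rw [h3, mul_comm y, ← ha, hz]
  obtain ⟨r, hr⟩ : k i ∣ ∏ i, k i := Finset.dvd_prod_of_mem _ (Finset.mem_univ i)
  have h4 : ((∏ i, k i : ℕ) : F) * ((z : ℚ) • d i) = ((r : ℤ) * z : ℤ) * ((k i : F) * d i) := by
    rw [hr, Algebra.smul_def, map_intCast]
    push_cast
    ring
  rw [h4]
  exact (isIntegral_algebraMap (R := ℤ) (x := (r : ℤ) * z)).mul (hki i)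

/-- The bound for the discriminant. -/
theorem core {F L : Type} [Field F] [NumberField F] [Field L] [NumberField L] [Algebra F L]
    {g : ℕ} {f : (𝓞 F)[X]} {θ : L} (m : ℕ) (hm : m ≠ 0) (hint : ∀ y : F,
      (∀ a : 𝓞 F, ∃ z : ℤ, Algebra.trace ℚ F ((a : F) * y) = z) → IsIntegral ℤ ((m : F) * y))
    (hG : IsGen g f θ) (α : L) (hα : α ≠ 0) (Λ : Submodule (𝓞 F) L) (hL : Lat hG α Λ) (N : ℕ)
    (hrank : Module.finrank ℚ L = N) (b : Fin N → L) (hb : LinearIndependent ℚ b)
    (hbΛ : ∀ x : L, x ∈ Λ ↔ ∃ c : Fin N → ℤ, x = ∑ i, (c i : L) * b i) :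
    |(Matrix.of fun i j => Algebra.trace ℚ L
      (b i * b j / (α * aeval θ (derivative (fF f))))).det| ≤ (m : ℚ) ^ N := by
  have : FiniteDimensional F L := FiniteDimensional.of_finrank_pos (by rw [hG.rank]; omega)
  have hN0 : 0 < N := by
    rw [← hrank]
    exact Module.finrank_pos
  have : Nonempty (Fin N) := ⟨⟨0, hN0⟩⟩
  let bb : Module.Basis (Fin N) ℚ L :=
    basisOfLinearIndependentOfCardEqFinrank hb (by rw [Fintype.card_fin, hrank])
  have hbb : ∀ i, bb i = b i := fun i => by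
    rw [coe_basisOfLinearIndependentOfCardEqFinrank]
  set D := aeval θ (derivative (fF f)) with hD
  have hD0 : D ≠ 0 := by
    intro h0
    have h1 := top_eq hG (θ ^ (2 * g))
    rw [← hD, h0, div_zero, map_zero] at h1
    have h2 : hG.top (θ ^ (2 * g)) = 1 := by
      have e1 : θ ^ (2 * g) = hG.basis (Fin.last (2 * g)) := by
        rw [hG.basis_apply]
        rfl
      rw [e1]
      unfold IsGen.top
      rw [Module.Basis.coord_apply, Module.Basis.repr_self, Finsupp.single_eq_same]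
    rw [h2] at h1
    exact one_ne_zero h1
  set δ := α * D with hδ
  have hδ0 : δ ≠ 0 := mul_ne_zero hα hD0
  let d := bb.traceDual
  have hdb : ∀ i j, Algebra.trace ℚ L (d i * b j) = if j = i then 1 else 0 := by
    intro i j
    rw [← hbb]
    exact bb.trace_traceDual_mul i j
  have hmem : ∀ i, (m : L) * (δ * d i) ∈ Λ := by
    intro i
    refine hL.dual _ fun x hx => ?_
    have h1 : x * ((m : L) * (δ * d i)) / α = (m : F) • (x * (δ * d i) / α) := by
      rw [Algebra.smul_def, map_natCast]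
      ring
    rw [h1, map_smul, smul_eq_mul]
    refine hint _ fun a => ?_
    have h2 : (a : F) * hG.top (x * (δ * d i) / α) = Algebra.trace F L ((a • x) * d i) := by
      rw [top_eq, ← smul_eq_mul, ← map_smul, ← hD]
      congr 1
      rw [Algebra.smul_def, Algebra.smul_def, hδ, IsScalarTower.algebraMap_apply (𝓞 F) F L]
      field_simp
    rw [h2, Algebra.trace_trace]
    obtain ⟨c, hc⟩ := (hbΛ (a • x)).mp (Λ.smul_mem a hx)
    refine ⟨c i, ?_⟩
    rw [hc, Finset.sum_mul, map_sum]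
    have h3 : ∀ j, Algebra.trace ℚ L ((c j : L) * b j * d i) = if j = i then (c j : ℚ) else 0 := by
      intro j
      have h4 : (c j : L) * b j * d i = (c j : ℚ) • (d i * b j) := by
        rw [Algebra.smul_def, map_intCast]
        ring
      rw [h4, map_smul, hdb, smul_eq_mul, mul_ite, mul_one, mul_zero]
    rw [Finset.sum_congr rfl fun j _ => h3 j]
    simp
  choose c hc using fun i => (hbΛ _).mp (hmem i)
  set G : Matrix (Fin N) (Fin N) ℚ := Matrix.of fun i j => Algebra.trace ℚ L (b i * b j / δ) with hGm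
  let Cm : Matrix (Fin N) (Fin N) ℤ := Matrix.of c
  have hmul : Cm.map (Int.cast : ℤ → ℚ) * G = (m : ℚ) • (1 : Matrix (Fin N) (Fin N) ℚ) := by
    ext i k
    rw [Matrix.mul_apply, Matrix.smul_apply, Matrix.one_apply, smul_eq_mul]
    have h1 : ∑ j, (Cm.map (Int.cast : ℤ → ℚ)) i j * G j k =
        Algebra.trace ℚ L ((∑ j, (c i j : L) * b j) * b k / δ) := by
      rw [Finset.sum_mul, Finset.sum_div, map_sum]
      refine Finset.sum_congr rfl fun j _ => ?_
      have h2 : (c i j : L) * b j * b k / δ = (c i j : ℚ) • (b j * b k / δ) := by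
        rw [Algebra.smul_def, map_intCast]
        ring
      rw [h2, map_smul, smul_eq_mul]
      rfl
    rw [h1, ← hc i]
    have h3 : (m : L) * (δ * d i) * b k / δ = (m : ℚ) • (d i * b k) := by
      rw [Algebra.smul_def, map_natCast]
      field_simp
    rw [h3, map_smul, hdb, smul_eq_mul]
    congr 1
    by_cases h : i = k
    · rw [if_pos h, if_pos h.symm]
    · rw [if_neg h, if_neg (Ne.symm h)]
  have hdet := congrArg Matrix.det hmul
  rw [Matrix.det_mul, Matrix.det_smul, Matrix.det_one, mul_one, Fintype.card_fin] at hdet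
  have h4 : (Cm.map (Int.cast : ℤ → ℚ)).det = ((Cm.det : ℤ) : ℚ) :=
    (RingHom.map_det (Int.castRingHom ℚ) Cm).symm
  rw [h4] at hdet
  have hm' : (m : ℚ) ^ N ≠ 0 := pow_ne_zero _ (by exact_mod_cast hm)
  have h5 : Cm.det ≠ 0 := by
    intro h
    rw [h, Int.cast_zero, zero_mul] at hdet
    exact hm' hdet.symm
  have h6 : (1 : ℚ) ≤ |((Cm.det : ℤ) : ℚ)| := by
    have : (1 : ℤ) ≤ |Cm.det| := Int.one_le_abs h5
    exact_mod_cast this
  have h7 : |((Cm.det : ℤ) : ℚ)| * |G.det| = (m : ℚ) ^ N := by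
    rw [← abs_mul, hdet, abs_of_nonneg (by positivity)]
  have h8 : |G.det| ≤ (m : ℚ) ^ N := by
    rw [← h7]
    exact le_mul_of_one_le_left (abs_nonneg _) h6
  exact h8

/-- **DIS.** -/
theorem dis : S_DIS := by
  intro g F _ _
  obtain ⟨m, hm, hint⟩ := exists_codiff F
  refine ⟨m ^ ((2 * g + 1) * Module.finrank ℚ F), ?_⟩
  intro L _ _ _ f θ hG α Λ hα hL
  obtain ⟨b, hb, hbΛ⟩ := exists_basis hG Λ hL.fg hL.span
  refine ⟨b, hb, hbΛ, ?_⟩
  have : FiniteDimensional F L := FiniteDimensional.of_finrank_pos (by rw [hG.rank]; omega)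
  have hrank : Module.finrank ℚ L = (2 * g + 1) * Module.finrank ℚ F := by
    rw [← Module.finrank_mul_finrank ℚ F L, hG.rank, mul_comm]
  rw [Nat.cast_pow]
  exact core m hm hint hG α hα Λ hL _ hrank b hb hbΛ

end Pool.Agent.N547.PF
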