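import Pool.Agent.N783.PF.Loc

/-!
# Project PF, part MIN: the twists are minimal (helper547)
-/

set_option autoImplicit false
set_option linter.all false

open Polynomial NumberField IsDedekindDomain
open scoped Classical

namespace Pool.Agent.N547.PF

open Pool.Agent.N783.PF

theorem map_eq_X_pow {R S : Type*} [CommRing R] [CommRing S] (φ : R →+* S) (f : R[X]) (n : ℕ)
    (hm : f.Monic) (hd : f.natDegree = n) (h : ∀ j < n, φ (f.coeff j) = 0) :
    f.map φ = X ^ n := by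
  ext j
  rw [coeff_map, coeff_X_pow]
  rcases lt_trichotomy j n with hj | hj | hj
  · rw [h j hj, if_neg (by omega)]
  · rw [if_pos hj, hj, ← hd, hm.coeff_natDegree, map_one]
  · rw [if_neg (by omega), coeff_eq_zero_of_natDegree_lt (by omega), map_zero]

theorem min : S_MIN := by
  intro g W F _ _ S J 𝔮 r P f hg hS hsq hm hd hc hJ 𝔭 hp h0 hall
  haveI := hp
  set D : ℕ := Dp J with hD
  have hall' : ∀ j ≤ 2 * g, f.coeff j * (D : 𝓞 F) ^ (2 * g + 1 - j) ∈ 𝔭 ^ (2 * (2 * g + 1 - j)) := by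
    intro j hj
    have := hall j hj
    rwa [coeff_scaleRoots, hd] at this
  by_cases hD1 : (D : 𝓞 F) ∈ 𝔭
  · -- one of the primes is in `𝔭`
    have h1 : ∃ q ∈ J, (q : 𝓞 F) ∈ 𝔭 := by
      rw [hD, Dp, Nat.cast_prod] at hD1
      exact (hp.prod_mem_iff).1 hD1
    obtain ⟨q, hqJ, hq𝔭⟩ := h1
    have hqS := hJ hqJ
    obtain ⟨hqp, hWq, hgq, hq8, hq2, h𝔮p, hq𝔮, hrm, hrd, hri, hPm, hPd, hPc, hPr, hPi⟩ := hS q hqS
    have hD' : (D : 𝓞 F) = (q : 𝓞 F) * (∏ q' ∈ J.erase q, (q' : 𝓞 F)) := by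
      rw [Finset.mul_prod_erase J (fun q' => (q' : 𝓞 F)) hqJ, hD, Dp, Nat.cast_prod]
    have hrest : (∏ q' ∈ J.erase q, (q' : 𝓞 F)) ∉ 𝔭 := by
      rw [hp.prod_mem_iff]
      rintro ⟨q', hq', hq'𝔭⟩
      rw [Finset.mem_erase] at hq'
      have hq'p := (hS q' (hJ hq'.2)).1
      have hcop : Nat.Coprime q q' := (Nat.coprime_primes hqp hq'p).2 (Ne.symm hq'.1)
      have h2 : IsCoprime (q : ℤ) (q' : ℤ) := Nat.isCoprime_iff_coprime.2 hcop
      obtain ⟨a, b, hab⟩ := h2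
      apply hp.ne_top
      rw [Ideal.eq_top_iff_one]
      have h3 : ((a : 𝓞 F) * (q : 𝓞 F) + (b : 𝓞 F) * (q' : 𝓞 F)) = 1 := by exact_mod_cast congrArg (Int.cast : ℤ → 𝓞 F) hab
      rw [← h3]
      exact 𝔭.add_mem (𝔭.mul_mem_left _ hq𝔭) (𝔭.mul_mem_left _ hq'𝔭)
    have hD2 : (D : 𝓞 F) ∉ 𝔭 ^ 2 := by
      intro h
      rw [hD', mul_comm] at h
      rcases Ideal.IsPrime.mul_mem_pow 𝔭 h with h' | h'
      · exact hrest h'
      · exact hq2 𝔭 hp h'
    have hco : ∀ j < 2 * g + 1, f.coeff j ∈ 𝔭 := by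
      intro j hj
      have h2 := hall' j (by omega)
      by_contra hcon
      rcases Ideal.IsPrime.mul_mem_pow 𝔭 h2 with h' | h'
      · exact hcon h'
      · apply hD2
        rw [pow_mul, ← Ideal.span_singleton_le_iff_mem, ← Ideal.span_singleton_pow,
          ← Ideal.dvd_iff_le, UniqueFactorizationMonoid.pow_dvd_pow_iff_dvd (by omega), Ideal.dvd_iff_le,
          Ideal.span_singleton_le_iff_mem] at h'
        exact h'
    have hf : rd 𝔭 f = X ^ (2 * g + 1) := map_eq_X_pow _ f _ hm hd fun j hj =>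
      Ideal.Quotient.eq_zero_iff_mem.2 (hco j hj)
    have hle : sp F q ≤ 𝔭 := by rwa [sp, Ideal.span_singleton_le_iff_mem]
    have hfP : rd 𝔭 f = rd 𝔭 (P q) := by
      ext j
      rw [coeff_map, coeff_map]
      exact (Ideal.Quotient.mk_eq_mk_iff_sub_mem _ _).mpr (hle (hc q hqS j))
    haveI : Nontrivial (𝓞 F ⧸ 𝔭) := Ideal.Quotient.nontrivial_iff.mpr hp.ne_top
    haveI : IsDomain (𝓞 F ⧸ 𝔭) := Ideal.Quotient.isDomain 𝔭
    by_cases h𝔭 : 𝔭 = 𝔮 q
    · have h3 : rd 𝔭 (P q) = X * rd 𝔭 (r q) := by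
        rw [rd, rd, ← map_X (Ideal.Quotient.mk 𝔭), ← Polynomial.map_mul]
        ext j
        rw [coeff_map, coeff_map]
        exact (Ideal.Quotient.mk_eq_mk_iff_sub_mem _ _).mpr (h𝔭 ▸ hPr j)
      have h4 : rd 𝔭 (r q) = X ^ (2 * g) := by
        have h5 : (X : (𝓞 F ⧸ 𝔭)[X]) * rd 𝔭 (r q) = X * X ^ (2 * g) := by
          rw [← h3, ← hfP, hf, pow_succ, mul_comm]
        exact mul_left_cancel₀ X_ne_zero h5
      rw [← h𝔭, h4] at hri
      exact not_irreducible_pow (by omega) hri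
    · have h6 := hPi 𝔭 hp hq𝔭 h𝔭
      rw [← hfP, hf] at h6
      exact not_irreducible_pow (by omega) h6
  · -- `D` is a unit modulo `𝔭`
    have hco : ∀ j < 2 * g + 1, f.coeff j ∈ 𝔭 ^ 2 := by
      intro j hj
      have h2 := hall' j (by omega)
      have h3 : (D : 𝓞 F) ^ (2 * g + 1 - j) ∉ 𝔭 := fun h => hD1 (hp.mem_of_pow_mem _ h)
      rw [mul_comm (f.coeff j)] at h2
      rcases Ideal.IsPrime.mul_mem_pow 𝔭 h2 with h' | h'
      · exact absurd h' h3
      · exact Ideal.pow_le_pow_right (by omega) h'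
    have hf : f.map (Ideal.Quotient.mk (𝔭 ^ 2)) = X ^ (2 * g + 1) := map_eq_X_pow _ f _ hm hd
      fun j hj => Ideal.Quotient.eq_zero_iff_mem.2 (hco j hj)
    apply hsq 𝔭 hp h0
    rw [← Ideal.Quotient.eq_zero_iff_mem, dsc, ← resultant_map_map, ← derivative_map, hf,
      resultant_X_pow_left]
    · rw [derivative_X_pow, coeff_C_mul, coeff_X_pow, if_neg (by omega), mul_zero,
        zero_pow (by omega)]
    · rw [derivative_X_pow]
      refine (natDegree_C_mul_le _ _).trans ?_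
      refine (natDegree_X_pow_le _).trans (by omega)

end Pool.Agent.N547.PF
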